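import Mathlib

attribute [-instance] RKHS.instFunLike SubringClass.toCommRing MonTypeEquivalenceMon.monMonoid
  AddQuantale.instAddLeftMono instCoeOutOfCoeFun Fintype.decidableForallFintype
  ContinuousMonoidHom.instCoeOutOfMonoidHomClassOfContinuousMapClass littleWedderburn instCoeTCOfCoe
  AlgHom.instNonUnitalAlgHomClassOfAlgHomClass NumberField.to_charZero instCoeTOfCoeDep
  SemilatticeInf.toPartialOrder IsometryClass.instCoeOutIsometryEquiv
  IdemSemiring.toCanonicallyOrderedAdd Module.FaithfullyFlat.toFlat AddQuantale.instAddRightMono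
  NonarchimedeanRing.toIsTopologicalRing SetLike.GradeZero.instCommRing
  MonoidWithZeroHomClass.toZeroHomClass

open Complex Filter Topology Set HurwitzZeta
open scoped Real

namespace GPCG53

/-- mean value bound for `t ↦ t ^ (-s)`. -/
lemma rpow_diff_le {x y d s : ℝ} (hd : 0 < d) (hx : d ≤ x) (hy : d ≤ y) (hxy : |x - y| ≤ 1)
    (hs1 : 1 ≤ s) (hs2 : s ≤ 2) :
    |x ^ (-s) - y ^ (-s)| ≤ 2 * (1 / d ^ (2 : ℝ) + 1 / d ^ (3 : ℝ)) := by
  have key : ∀ t ∈ Ici d, ‖-s * t ^ (-s - 1)‖ ≤ 2 * (1 / d ^ (2 : ℝ) + 1 / d ^ (3 : ℝ)) := by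
    intro t ht
    have ht0 : 0 < t := lt_of_lt_of_le hd ht
    have h1 : t ^ (-s - 1) ≤ d ^ (-s - 1) :=
      Real.rpow_le_rpow_of_nonpos hd ht (by linarith)
    have h2 : d ^ (-s - 1) ≤ 1 / d ^ (2 : ℝ) + 1 / d ^ (3 : ℝ) := by
      rw [one_div, one_div, ← Real.rpow_neg hd.le, ← Real.rpow_neg hd.le]
      have p2 : 0 ≤ d ^ (-(2 : ℝ)) := Real.rpow_nonneg hd.le _
      have p3 : 0 ≤ d ^ (-(3 : ℝ)) := Real.rpow_nonneg hd.le _
      rcases le_total 1 d with h | h
      · have := Real.rpow_le_rpow_of_exponent_le h (show -s - 1 ≤ -(2 : ℝ) by linarith)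
        linarith
      · have := Real.rpow_le_rpow_of_exponent_ge hd h (show -(3 : ℝ) ≤ -s - 1 by linarith)
        linarith
    have h3 : 0 ≤ t ^ (-s - 1) := Real.rpow_nonneg ht0.le _
    rw [Real.norm_eq_abs, abs_mul, abs_neg, abs_of_nonneg (by linarith only [hs1] : 0 ≤ s), abs_of_nonneg h3]
    nlinarith only [hs2, h1, h2, h3]
  have hder : ∀ t ∈ Ici d, HasDerivWithinAt (fun t : ℝ => t ^ (-s)) (-s * t ^ (-s - 1)) (Ici d) t :=
    fun t ht => (Real.hasDerivAt_rpow_const (Or.inl (lt_of_lt_of_le hd ht).ne')).hasDerivWithinAt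
  have := (convex_Ici d).norm_image_sub_le_of_norm_hasDerivWithin_le hder key hy hx
  rw [Real.norm_eq_abs, Real.norm_eq_abs] at this
  have p : 0 ≤ 2 * (1 / d ^ (2 : ℝ) + 1 / d ^ (3 : ℝ)) := by positivity
  nlinarith only [hxy, this, p]

lemma hasSum_one {a : ℝ} (h0 : 0 < a) (h1 : a < 1) :
    HasSum (fun n : ℕ => (1 / (n + a : ℂ) - 1 / (n + 1 - a : ℂ)) / 2)
      (π / 2 * cot (π * a)) := by
  have hz : (a : ℂ) ∈ integerComplement := by
    rintro ⟨k, hk⟩
    have : (k : ℝ) = a := by exact_mod_cast hk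
    have h2 : (0 : ℝ) < k := this ▸ h0
    have h3 : (k : ℝ) < 1 := this ▸ h1
    have h2' : 0 < k := by exact_mod_cast h2
    have h3' : k < 1 := by exact_mod_cast h3
    omega
  have hc := (summable_cotTerm hz).hasSum
  rw [← cot_series_rep' hz] at hc
  have ht : HasSum (fun n : ℕ => (1 / (n + a) - 1 / (n + 1 + a) : ℝ)) (1 / a) := by
    rw [hasSum_iff_tendsto_nat_of_nonneg]
    · have e : ∀ M : ℕ, ∑ n ∈ Finset.range M, (1 / (n + a) - 1 / (n + 1 + a) : ℝ)
          = 1 / a - 1 / (M + a) := by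
        intro M
        induction M with
        | zero => simp
        | succ M ih => rw [Finset.sum_range_succ, ih]; push_cast; ring
      simp_rw [e]
      have : Tendsto (fun M : ℕ => (1 / (M + a) : ℝ)) atTop (𝓝 0) :=
        tendsto_const_nhds.div_atTop (tendsto_atTop_add_const_right _ _ tendsto_natCast_atTop_atTop)
      simpa only [one_div, sub_zero] using tendsto_const_nhds.sub this
    · intro n
      have : (0 : ℝ) < n + a := by positivity
      exact sub_nonneg.2 (one_div_le_one_div_of_le this (by linarith))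
  have ht' := (Complex.ofRealCLM.hasSum ht)
  have := (ht'.add hc).div_const 2
  have e : (ofRealCLM (1 / a) + (π * cot (π * a) - 1 / a)) / 2 = π / 2 * cot (π * a) := by
    simp only [ofRealCLM_apply]; push_cast; ring
  rw [e] at this
  refine this.congr_fun fun n => ?_
  simp only [ofRealCLM_apply, cotTerm]
  push_cast
  have : (a : ℂ) - (n + 1) = -(n + 1 - a) := by ring
  rw [this, one_div_neg_eq_neg_one_div, add_comm (a : ℂ) (n + 1)]
  ring

/-- `ζ_odd(a, 1) = (π / 2) cot (π a)`. -/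
theorem hurwitzZetaOdd_one {a : ℝ} (h0 : 0 < a) (h1 : a < 1) :
    hurwitzZetaOdd a 1 = π / 2 * cot (π * a) := by
  set m := min a (1 - a) with hm
  have hm0 : 0 < m := lt_min h0 (by linarith)
  let sk : ℕ → ℝ := fun k => 1 + 1 / ((k : ℝ) + 1)
  have hsk : Tendsto sk atTop (𝓝 1) := by
    have := (tendsto_const_nhds (x := (1 : ℝ))).add
      (tendsto_one_div_add_atTop_nhds_zero_nat (𝕜 := ℝ))
    rwa [add_zero] at this
  have hskc : Tendsto (fun k => (sk k : ℂ)) atTop (𝓝 1) := by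
    have := (continuous_ofReal.tendsto 1).comp hsk
    rwa [ofReal_one] at this
  have hsk1 : ∀ k, 1 < sk k := fun k => by
    have : (0 : ℝ) < 1 / ((k : ℝ) + 1) := by positivity
    simp only [sk]; linarith
  have hsk2 : ∀ k, sk k ≤ 2 := fun k => by
    have : 1 / ((k : ℝ) + 1) ≤ 1 := by
      rw [div_le_one (by positivity)]; linarith [Nat.cast_nonneg (α := ℝ) k]
    simp only [sk]; linarith
  have hL : Tendsto (fun k => hurwitzZetaOdd a (sk k : ℂ)) atTop (𝓝 (hurwitzZetaOdd a 1)) :=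
    ((differentiable_hurwitzZetaOdd a).continuous.tendsto 1).comp hskc
  have hbd : Summable (fun n : ℕ => (1 / |(n : ℝ) + m| ^ (2 : ℝ) + 1 / |(n : ℝ) + m| ^ (3 : ℝ))) :=
    ((Real.summable_one_div_nat_add_rpow m 2).2 (by norm_num)).add
      ((Real.summable_one_div_nat_add_rpow m 3).2 (by norm_num))
  have hR := tendsto_tsum_of_dominated_convergence (𝓕 := atTop)
    (f := fun (k : ℕ) (n : ℕ) => (1 / (n + a : ℂ) ^ (sk k : ℂ) - 1 / (n + 1 - a : ℂ) ^ (sk k : ℂ)) / 2)
    (g := fun n : ℕ => (1 / (n + a : ℂ) - 1 / (n + 1 - a : ℂ)) / 2) hbd ?_ ?_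
  · rw [(hasSum_one h0 h1).tsum_eq] at hR
    refine tendsto_nhds_unique hL (hR.congr fun k => ?_)
    exact (hasSum_nat_hurwitzZetaOdd_of_mem_Icc ⟨h0.le, h1.le⟩ (by simpa using hsk1 k)).tsum_eq
  · intro n
    have e1 : (n + a : ℂ) ≠ 0 := by
      have : (0 : ℝ) < n + a := by positivity
      exact_mod_cast this.ne'
    have e2 : (n + 1 - a : ℂ) ≠ 0 := by
      have : (0 : ℝ) < n + 1 - a := by linarith [Nat.cast_nonneg (α := ℝ) n]
      exact_mod_cast this.ne'
    have c1 := ((continuousAt_const_cpow e1 (b := 1)).tendsto.comp hskc)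
    have c2 := ((continuousAt_const_cpow e2 (b := 1)).tendsto.comp hskc)
    rw [cpow_one] at c1 c2
    exact ((tendsto_const_nhds.div c1 e1).sub (tendsto_const_nhds.div c2 e2)).div_const 2
  · refine Eventually.of_forall fun k n => ?_
    have hn : (0 : ℝ) ≤ n := Nat.cast_nonneg n
    have hd : (0 : ℝ) < n + m := by positivity
    have hx : (n : ℝ) + m ≤ n + a := by linarith [min_le_left a (1 - a)]
    have hy : (n : ℝ) + m ≤ n + 1 - a := by linarith [min_le_right a (1 - a)]
    have hxy : |((n : ℝ) + a) - (n + 1 - a)| ≤ 1 := by rw [abs_le]; constructor <;> linarith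
    have hb := rpow_diff_le hd hx hy hxy (hsk1 k).le (hsk2 k)
    have e : (1 / (n + a : ℂ) ^ (sk k : ℂ) - 1 / (n + 1 - a : ℂ) ^ (sk k : ℂ)) / 2
        = ((((n + a : ℝ) ^ (-sk k) - (n + 1 - a : ℝ) ^ (-sk k)) / 2 : ℝ) : ℂ) := by
      rw [Real.rpow_neg (by linarith only [h0]), Real.rpow_neg (by linarith only [h1])]
      push_cast
      rw [ofReal_cpow (by linarith only [h0]), ofReal_cpow (by linarith only [h1])]
      push_cast
      simp only [one_div]
    rw [e, norm_real, Real.norm_eq_abs, abs_div, abs_two, abs_of_pos hd]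
    linarith only [hb]

variable {N : ℕ} [NeZero N]

/-- `cot (π j / N)`, zero at `j = 0`. -/
noncomputable def ct (j : ZMod N) : ℂ := if j = 0 then 0 else cot (π * ((j.val / N : ℝ) : ℂ))

lemma val_div_mem {j : ZMod N} (hj : j ≠ 0) : (0 : ℝ) < j.val / N ∧ (j.val / N : ℝ) < 1 := by
  have hN : (0 : ℝ) < N := by exact_mod_cast Nat.pos_of_ne_zero (NeZero.ne N)
  refine ⟨div_pos (by exact_mod_cast Nat.pos_of_ne_zero (by simpa using hj)) hN, ?_⟩
  rw [div_lt_one hN]; exact_mod_cast ZMod.val_lt j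

theorem sum_ct_ne_zero (χ : DirichletCharacter ℂ N) (hχ : χ.Odd) :
    ∑ j : ZMod N, χ j * ct j ≠ 0 := by
  have h1 : χ ≠ 1 := by
    rintro rfl
    have : (1 : DirichletCharacter ℂ N) (-1) = -1 := hχ
    rw [MulChar.one_apply (isUnit_one.neg)] at this
    norm_num at this
  have hL := DirichletCharacter.LFunction_apply_one_ne_zero h1
  rw [DirichletCharacter.LFunction, ZMod.LFunction_def_odd hχ.to_fun] at hL
  intro h
  apply hL
  have : ∑ j : ZMod N, χ j * hurwitzZetaOdd (ZMod.toAddCircle j) 1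
      = π / 2 * ∑ j : ZMod N, χ j * ct j := by
    rw [Finset.mul_sum]
    refine Finset.sum_congr rfl fun j _ => ?_
    by_cases hj : j = 0
    · subst hj
      have : hurwitzZetaOdd 0 1 = 0 := by
        have := hurwitzZetaOdd_neg 0 1
        rw [neg_zero] at this
        linear_combination this / 2
      simp [ct, this]
    · rw [ZMod.toAddCircle_apply, hurwitzZetaOdd_one (val_div_mem hj).1 (val_div_mem hj).2, ct,
        if_neg hj]
      ring
  rw [this, h, mul_zero, mul_zero]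

/-- the first periodic Bernoulli function on `ℤ / N`. -/
def b1 (N : ℕ) (a : ZMod N) : ℚ := if a = 0 then 0 else (a.val : ℚ) / N - 1 / 2

lemma sum_range_mul_pow (z : ℂ) (n : ℕ) :
    (z - 1) ^ 2 * ∑ a ∈ Finset.range n, (a : ℂ) * z ^ a
      = (n - 1) * z ^ (n + 1) - n * z ^ n + z := by
  induction n with
  | zero => simp
  | succ n ih => rw [Finset.sum_range_succ, mul_add, ih]; push_cast; ring

lemma sum_val (f : ℕ → ℂ) : ∑ a : ZMod N, f a.val = ∑ a ∈ Finset.range N, f a := by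
  obtain ⟨n, rfl⟩ := Nat.exists_eq_succ_of_ne_zero (NeZero.ne N)
  exact Fin.sum_univ_eq_sum_range f (n + 1)

theorem dft_b1 (k : ZMod N) :
    ∑ a : ZMod N, (b1 N a : ℂ) * ZMod.stdAddChar (a * k) = ct k / (2 * I) := by
  have hN : (N : ℂ) ≠ 0 := by exact_mod_cast NeZero.ne N
  set z : ℂ := ZMod.stdAddChar k with hz
  have hpow : ∀ a : ZMod N, ZMod.stdAddChar (a * k) = z ^ a.val := by
    intro a
    rw [hz, ← AddChar.map_nsmul_eq_pow, nsmul_eq_mul, ZMod.natCast_zmod_val]
  have hb : ∀ a : ZMod N, (b1 N a : ℂ) * z ^ a.val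
      = (N : ℂ)⁻¹ * ((a.val : ℂ) * z ^ a.val) - 1 / 2 * z ^ a.val + if a = 0 then 1 / 2 else 0 := by
    intro a
    by_cases ha : a = 0
    · subst ha; simp [b1]
    · simp only [b1, if_neg ha]; push_cast; ring
  simp_rw [hpow, hb]
  rw [Finset.sum_add_distrib, Finset.sum_sub_distrib, ← Finset.mul_sum, ← Finset.mul_sum,
    sum_val (fun a => (a : ℂ) * z ^ a), sum_val (fun a => z ^ a), Finset.sum_ite_eq']
  simp only [Finset.mem_univ, if_true]
  by_cases hk : k = 0
  · have : z = 1 := by rw [hz, hk, AddChar.map_zero_eq_one]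
    simp only [this, one_pow, mul_one, ct, if_pos hk, Finset.sum_const, Finset.card_range,
      nsmul_eq_mul, zero_div]
    have e : (∑ a ∈ Finset.range N, (a : ℂ)) * 2 = N * (N - 1) := by
      have := Finset.sum_range_id_mul_two N
      have h2 : ((∑ i ∈ Finset.range N, i) * 2 : ℕ) = ((N * (N - 1) : ℕ) : ℂ) := by rw [this]
      push_cast [Nat.cast_sub (Nat.pos_of_ne_zero (NeZero.ne N))] at h2
      exact h2
    field_simp
    linear_combination e
  · have hz1 : z ≠ 1 := by
      intro h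
      apply hk
      apply ZMod.injective_stdAddChar
      rw [← hz, h, AddChar.map_zero_eq_one]
    have hzN : z ^ N = 1 := by
      rw [hz, ← AddChar.map_nsmul_eq_pow, nsmul_eq_mul, ZMod.natCast_self, zero_mul,
        AddChar.map_zero_eq_one]
    have e1 := sum_range_mul_pow z N
    have e2 : ∑ a ∈ Finset.range N, z ^ a = 0 := by
      rw [geom_sum_eq hz1, hzN, sub_self, zero_div]
    have e3 : cexp (2 * π * I * ((k.val / N : ℝ) : ℂ)) = z := by
      rw [hz]
      conv_rhs => rw [← ZMod.natCast_zmod_val k, ← Int.cast_natCast, ZMod.stdAddChar_coe]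
      push_cast; ring_nf
    have hz1' : z - 1 ≠ 0 := sub_ne_zero.2 hz1
    have hz1'' : 1 - z ≠ 0 := sub_ne_zero.2 hz1.symm
    have e4 : ∑ a ∈ Finset.range N, (a : ℂ) * z ^ a = N / (z - 1) := by
      rw [eq_div_iff hz1']
      apply mul_left_cancel₀ hz1'
      rw [pow_succ z N, hzN] at e1
      linear_combination e1
    rw [e2, e4, ct, if_neg hk, cot_pi_eq_exp_ratio, e3]
    field_simp
    linear_combination (-(z - 1) * (z + 1)) * I_mul_I

/-- **Chowla–Okada, group-ring form.** -/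
theorem lin (c : (ZMod N)ˣ → ℂ) (odd : ∀ u, c (-u) = -c u)
    (h : ∀ a : ZMod N, ∑ u, c u * (b1 N (u * a) : ℂ) = 0) : c = 0 := by
  have h1 : ∀ k : ZMod N, ∑ u : (ZMod N)ˣ, c u * ct (((u⁻¹ : (ZMod N)ˣ) : ZMod N) * k) = 0 := by
    intro k
    have : ∑ a : ZMod N, (∑ u, c u * (b1 N (u * a) : ℂ)) * ZMod.stdAddChar (a * k) = 0 := by
      simp only [h, zero_mul, Finset.sum_const_zero]
    simp_rw [Finset.sum_mul] at this
    rw [Finset.sum_comm] at this
    have e : ∀ u : (ZMod N)ˣ, ∑ a : ZMod N, c u * (b1 N (u * a) : ℂ) * ZMod.stdAddChar (a * k)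
        = c u * ct (((u⁻¹ : (ZMod N)ˣ) : ZMod N) * k) / (2 * I) := by
      intro u
      rw [mul_div_assoc, ← dft_b1, Finset.mul_sum]
      refine Fintype.sum_equiv (Units.mulLeft u) _ _ fun a => ?_
      simp only [Units.mulLeft_apply]
      rw [mul_assoc, show (u : ZMod N) * a * (((u⁻¹ : (ZMod N)ˣ) : ZMod N) * k) = a * k by
        rw [mul_comm (u : ZMod N) a, mul_assoc, ← mul_assoc (u : ZMod N), Units.mul_inv, one_mul]]
    simp_rw [e, ← Finset.sum_div] at this
    exact (div_eq_zero_iff.1 this).resolve_right (by simp)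
  have h2 : ∀ χ : DirichletCharacter ℂ N, ∑ u : (ZMod N)ˣ, c u * χ u = 0 := by
    intro χ
    rcases χ.even_or_odd with he | ho
    · have : ∑ u : (ZMod N)ˣ, c u * χ u = -∑ u : (ZMod N)ˣ, c u * χ u := by
        rw [← Finset.sum_neg_distrib]
        refine Fintype.sum_equiv (Equiv.neg _) _ _ fun u => ?_
        simp only [Equiv.neg_apply, odd, Units.val_neg, he.eval_neg]
        ring
      linear_combination this / 2
    · have : ∑ k : ZMod N, χ k * ∑ u : (ZMod N)ˣ, c u * ct (((u⁻¹ : (ZMod N)ˣ) : ZMod N) * k) = 0 := by simp [h1]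
      simp_rw [Finset.mul_sum] at this
      rw [Finset.sum_comm] at this
      have e : ∀ u : (ZMod N)ˣ, ∑ k : ZMod N, χ k * (c u * ct (((u⁻¹ : (ZMod N)ˣ) : ZMod N) * k))
          = c u * χ u * ∑ j : ZMod N, χ j * ct j := by
        intro u
        rw [Finset.mul_sum]
        symm
        refine Fintype.sum_equiv (Units.mulLeft u) _ _ fun a => ?_
        simp only [Units.mulLeft_apply, map_mul, Units.inv_mul_cancel_left]
        ring
      simp_rw [e, ← Finset.sum_mul] at this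
      exact (mul_eq_zero.1 this).resolve_right (sum_ct_ne_zero χ ho)
  funext v
  have : ∑ χ : DirichletCharacter ℂ N, χ (v : ZMod N)⁻¹ * ∑ u : (ZMod N)ˣ, c u * χ u = 0 := by
    simp [h2]
  simp_rw [Finset.mul_sum] at this
  rw [Finset.sum_comm] at this
  have e : ∀ u : (ZMod N)ˣ, ∑ χ : DirichletCharacter ℂ N, χ (v : ZMod N)⁻¹ * (c u * χ u)
      = if v = u then c u * N.totient else 0 := by
    intro u
    have := DirichletCharacter.sum_char_inv_mul_char_eq ℂ v.isUnit (u : ZMod N)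
    simp_rw [mul_left_comm _ (c u), ← Finset.mul_sum]
    rw [this]
    simp [Units.val_inj]
  simp_rw [e, Finset.sum_ite_eq, Finset.mem_univ, if_true] at this
  have ht : (N.totient : ℂ) ≠ 0 := by
    exact_mod_cast (Nat.totient_pos.2 (Nat.pos_of_ne_zero (NeZero.ne N))).ne'
  exact (mul_eq_zero.1 this).resolve_right ht

/-- the sign of `1 / 2 - ⟨a / N⟩`, zero at `a = 0` and at `a = N / 2`. -/
def eps (N : ℕ) (a : ZMod N) : ℤ :=
  if a = 0 then 0 else if 2 * a.val < N then 1 else if 2 * a.val = N then 0 else -1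

lemma eps_eq (a : ZMod N) : (eps N a : ℚ) = -2 * (2 * b1 N a - b1 N (2 * a)) := by
  have hN0 : 0 < N := Nat.pos_of_ne_zero (NeZero.ne N)
  have hN : (N : ℚ) ≠ 0 := by exact_mod_cast hN0.ne'
  have hlt := ZMod.val_lt a
  by_cases ha : a = 0
  · subst ha; simp [eps, b1]
  have hv : a.val ≠ 0 := by simpa using ha
  have h2 : (2 * a).val = (2 * a.val) % N := by
    rw [two_mul, two_mul, ZMod.val_add]
  have hz : 2 * a = 0 ↔ (2 * a.val) % N = 0 := by rw [← h2, ZMod.val_eq_zero]
  simp only [eps, b1, if_neg ha, hz, h2]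
  rcases lt_trichotomy (2 * a.val) N with h | h | h
  · rw [if_pos h, Nat.mod_eq_of_lt h, if_neg (by omega)]
    push_cast; field_simp; ring
  · rw [if_neg (by omega), if_pos h, h, Nat.mod_self, if_pos rfl]
    have : (N : ℚ) = 2 * a.val := by exact_mod_cast h.symm
    rw [this] at hN ⊢
    field_simp; simp
  · have e : (2 * a.val) % N = 2 * a.val - N := by
      rw [Nat.mod_eq_sub_mod h.le, Nat.mod_eq_of_lt (by omega)]
    rw [if_neg (by omega), if_neg (by omega), e, if_neg (by omega)]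
    push_cast [Nat.cast_sub h.le]; field_simp; ring

lemma eps_neg (a : ZMod N) : eps N (-a) = -eps N a := by
  by_cases ha : a = 0
  · subst ha; simp [eps]
  have hlt := ZMod.val_lt a
  have hv : a.val ≠ 0 := by simpa using ha
  simp only [eps, neg_eq_zero, if_neg ha, ZMod.neg_val]
  split_ifs <;> omega

theorem lin_eps (c : (ZMod N)ˣ → ℂ) (odd : ∀ u, c (-u) = -c u)
    (h : ∀ a : ZMod N, ∑ u, c u * (eps N (u * a) : ℂ) = 0) : c = 0 := by
  set g : ZMod N → ℂ := fun a => ∑ u, c u * (b1 N (u * a) : ℂ) with hg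
  have h2 : ∀ a, g (2 * a) = 2 * g a := by
    intro a
    have e : ∀ u : (ZMod N)ˣ, c u * (eps N (u * a) : ℂ)
        = -4 * (c u * (b1 N (u * a) : ℂ)) + 2 * (c u * (b1 N (u * (2 * a)) : ℂ)) := by
      intro u
      have := congrArg (fun q : ℚ => (q : ℂ)) (eps_eq (N := N) (u * a))
      push_cast at this
      rw [this, mul_left_comm (u : ZMod N) 2 a]; ring
    have := h a
    simp_rw [e, Finset.sum_add_distrib, ← Finset.mul_sum] at this
    simp only [hg]
    linear_combination this / 2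
  obtain ⟨a₀, ha₀⟩ := Finite.exists_max fun a => ‖g a‖
  have h3 := ha₀ (2 * a₀)
  rw [h2, norm_mul, Complex.norm_two] at h3
  refine lin c odd fun a => ?_
  have := ha₀ a
  exact norm_eq_zero.1 (le_antisymm (by linarith [norm_nonneg (g a₀)]) (norm_nonneg (g a)))

variable (N) in
/-- odd rational functions on the units. -/
def Od : Submodule ℚ ((ZMod N)ˣ → ℚ) where
  carrier := {v | ∀ u, v (-u) = -v u}
  add_mem' ha hb u := by simp only [Pi.add_apply, ha u, hb u]; ring
  zero_mem' u := by simp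
  smul_mem' r v hv u := by simp only [Pi.smul_apply, hv u, smul_eq_mul]; ring

theorem span_eps :
    Submodule.span ℚ (range fun (a : ZMod N) (u : (ZMod N)ˣ) => (eps N (u * a) : ℚ)) = Od N := by
  classical
  refine le_antisymm (Submodule.span_le.2 ?_) fun v hv => ?_
  · rintro _ ⟨a, rfl⟩ u
    simp only [Units.val_neg, neg_mul, eps_neg, Int.cast_neg]
  by_contra hn
  obtain ⟨f, hf, hb⟩ := Submodule.exists_dual_map_eq_bot_of_notMem hn inferInstance
  set c : (ZMod N)ˣ → ℚ := fun u => f (Pi.single u 1) with hc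
  have hf' : ∀ w : (ZMod N)ˣ → ℚ, f w = ∑ u, c u * w u := by
    intro w
    conv_lhs => rw [pi_eq_sum_univ' w, map_sum]
    simp only [map_smul, smul_eq_mul, hc, mul_comm]
  have hodd : ∀ w ∈ Od N, ∑ u, (c u - c (-u)) * w u = 2 * f w := by
    intro w hw
    have : ∑ u, c (-u) * w u = -∑ u, c u * w u := by
      rw [← Finset.sum_neg_distrib]
      refine Fintype.sum_equiv (Equiv.neg _) _ _ fun u => ?_
      simp only [Equiv.neg_apply, hw u]; ring
    simp_rw [sub_mul, Finset.sum_sub_distrib, this, hf']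
    ring
  have h0 := lin_eps (N := N) (fun u => ((c u - c (-u) : ℚ) : ℂ))
    (fun u => by rw [neg_neg]; push_cast; ring) fun a => by
      have h1 := hodd (fun u => (eps N (u * a) : ℚ)) fun u => by
        simp only [Units.val_neg, neg_mul, eps_neg, Int.cast_neg]
      have h2 : f (fun u => (eps N (u * a) : ℚ)) = 0 := by
        have : f (fun u => (eps N (u * a) : ℚ)) ∈ Submodule.map f (Submodule.span ℚ
            (range fun (a : ZMod N) (u : (ZMod N)ˣ) => (eps N (u * a) : ℚ))) :=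
          Submodule.mem_map_of_mem (Submodule.subset_span ⟨a, rfl⟩)
        rwa [hb, Submodule.mem_bot] at this
      rw [h2, mul_zero] at h1
      exact_mod_cast h1
  apply hf
  have h4 := hodd v hv
  have h5 : ∀ u, c u - c (-u) = 0 := fun u => by
    have := congrFun h0 u
    rw [Pi.zero_apply] at this
    exact_mod_cast this
  simp only [h5, zero_mul, Finset.sum_const_zero] at h4
  linarith only [h4]

theorem finrank_Od (hN : 3 ≤ N) : Module.finrank ℚ (Od N) = N.totient / 2 := by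
  classical
  let τ : ((ZMod N)ˣ → ℚ) →ₗ[ℚ] ((ZMod N)ˣ → ℚ) := LinearMap.funLeft ℚ ℚ fun u => -u
  have hP : LinearMap.IsProj (Od N) ((1 / 2 : ℚ) • (LinearMap.id - τ)) := by
    refine ⟨fun v u => ?_, fun v hv => ?_⟩
    · simp only [one_div, τ, LinearMap.smul_apply, LinearMap.sub_apply, LinearMap.id_coe, id_eq, Pi.smul_apply, Pi.sub_apply, LinearMap.funLeft_apply, neg_neg, smul_eq_mul]; ring
    · funext u
      simp only [one_div, τ, LinearMap.smul_apply, LinearMap.sub_apply, LinearMap.id_coe, id_eq, Pi.smul_apply, Pi.sub_apply, LinearMap.funLeft_apply, hv u, sub_neg_eq_add, smul_eq_mul]; ring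
  have ht := hP.trace
  have hne : ∀ u : (ZMod N)ˣ, -u ≠ u := by
    intro u h
    have h1 : (-1 : (ZMod N)ˣ) = 1 := by
      have := congrArg (· * u⁻¹) h
      simpa only [neg_mul, mul_inv_cancel] using this
    have : Fact (2 < N) := ⟨hN⟩
    exact ZMod.neg_one_ne_one (n := N) (by simpa using congrArg Units.val h1)
  have hτ : LinearMap.trace ℚ _ τ = 0 := by
    rw [LinearMap.trace_eq_matrix_trace ℚ (Pi.basisFun ℚ _), Matrix.trace]
    refine Finset.sum_eq_zero fun u _ => ?_
    simp [τ, LinearMap.funLeft_apply, hne u]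
  rw [map_smul, map_sub, hτ, LinearMap.trace_id, Module.finrank_fintype_fun_eq_card,
    ZMod.card_units_eq_totient] at ht
  have : (N.totient : ℚ) = 2 * Module.finrank ℚ (Od N) := by
    rw [← ht]; simp
  have : N.totient = 2 * Module.finrank ℚ (Od N) := by exact_mod_cast this
  omega

lemma b1_neg (a : ZMod N) : b1 N (-a) = -b1 N a := by
  by_cases ha : a = 0
  · subst ha; simp [b1]
  have hN : (N : ℚ) ≠ 0 := by exact_mod_cast NeZero.ne N
  simp only [b1, neg_eq_zero, if_neg ha, ZMod.neg_val]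
  push_cast [Nat.cast_sub (ZMod.val_lt a).le]
  field_simp; ring

theorem span_b1 :
    Submodule.span ℚ (range fun (a : ZMod N) (u : (ZMod N)ˣ) => b1 N (u * a)) = Od N := by
  refine le_antisymm (Submodule.span_le.2 ?_) (span_eps (N := N) ▸ Submodule.span_le.2 ?_)
  · rintro _ ⟨a, rfl⟩ u
    simp only [Units.val_neg, neg_mul, b1_neg]
  · rintro _ ⟨a, rfl⟩
    have m : ∀ a : ZMod N, (fun u : (ZMod N)ˣ => b1 N (u * a)) ∈ Submodule.span ℚ
        (range fun (a : ZMod N) (u : (ZMod N)ˣ) => b1 N (u * a)) :=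
      fun a => Submodule.subset_span ⟨a, rfl⟩
    have := Submodule.smul_mem _ (-2 : ℚ) (sub_mem (Submodule.smul_mem _ (2 : ℚ) (m a)) (m (2 * a)))
    change (fun u : (ZMod N)ˣ => (eps N (u * a) : ℚ)) ∈ Submodule.span ℚ _
    convert this using 1
    funext u
    simp only [eps_eq, Pi.smul_apply, Pi.sub_apply, smul_eq_mul, mul_left_comm (u : ZMod N) 2 a]

end GPCG53

namespace GPCG53

lemma exists_mid {M N N' : ℕ} [NeZero M] (h : N ∣ M) (h' : N' ∣ M) (u v : (ZMod M)ˣ)
    (e : ZMod.unitsMap ((Nat.gcd_dvd_left N N').trans h) u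
      = ZMod.unitsMap ((Nat.gcd_dvd_left N N').trans h) v) :
    ∃ w, ZMod.unitsMap h w = ZMod.unitsMap h u ∧ ZMod.unitsMap h' w = ZMod.unitsMap h' v := by
  have hc : (u : ZMod M).val ≡ (v : ZMod M).val [MOD N.gcd N'] := by
    rw [← ZMod.natCast_eq_natCast_iff, ZMod.natCast_val, ZMod.natCast_val]
    exact congrArg Units.val e
  obtain ⟨k, hk, hk'⟩ := Nat.chineseRemainder' hc
  have c : k.Coprime N := hk.gcd_eq.trans ((ZMod.val_coe_unit_coprime u).coprime_dvd_right h)
  have c' : k.Coprime N' := hk'.gcd_eq.trans ((ZMod.val_coe_unit_coprime v).coprime_dvd_right h')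
  obtain ⟨w, hw⟩ := ZMod.unitsMap_surjective (Nat.lcm_dvd h h')
    (ZMod.unitOfCoprime k ((c.mul_right c').coprime_dvd_right (Nat.lcm_dvd_mul N N')))
  have key : ∀ {L : ℕ} (a : L ∣ N.lcm N') (b : L ∣ M) (x : (ZMod M)ˣ),
      k ≡ (x : ZMod M).val [MOD L] → ZMod.unitsMap b w = ZMod.unitsMap b x := by
    intro L a b x hx
    have := congrArg (ZMod.unitsMap a) hw
    rw [← MonoidHom.comp_apply, ZMod.unitsMap_comp] at this
    refine this.trans (Units.ext ?_)
    rw [ZMod.unitsMap_val, ZMod.unitsMap_val, ZMod.coe_unitOfCoprime, ZMod.cast_natCast a,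
      ← ZMod.natCast_val, ZMod.natCast_eq_natCast_iff]
    exact hx
  exact ⟨w, key (Nat.dvd_lcm_left N N') h u hk, key (Nat.dvd_lcm_right N N') h' v hk'⟩

theorem Od_inf {M N N' : ℕ} [NeZero M] (h : N ∣ M) (h' : N' ∣ M) :
    (Od N).map (LinearMap.funLeft ℚ ℚ (ZMod.unitsMap h)) ⊓
      (Od N').map (LinearMap.funLeft ℚ ℚ (ZMod.unitsMap h')) ≤
    (Od (N.gcd N')).map
      (LinearMap.funLeft ℚ ℚ (ZMod.unitsMap ((Nat.gcd_dvd_left N N').trans h))) := by
  rintro _ ⟨⟨g, hg, rfl⟩, g', -, e⟩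
  have hs := ZMod.unitsMap_surjective (n := N.gcd N') ((Nat.gcd_dvd_left N N').trans h)
  have hn : ∀ {L : ℕ} (b : L ∣ M) (x : (ZMod M)ˣ), ZMod.unitsMap b (-x) = -ZMod.unitsMap b x :=
    fun b x => Units.ext (by simp [ZMod.unitsMap_def])
  have inv : ∀ u v : (ZMod M)ˣ, ZMod.unitsMap ((Nat.gcd_dvd_left N N').trans h) u
      = ZMod.unitsMap ((Nat.gcd_dvd_left N N').trans h) v →
      g (ZMod.unitsMap h u) = g (ZMod.unitsMap h v) := by
    intro u v huv
    obtain ⟨w, a, b⟩ := exists_mid h h' u v huv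
    have e₁ : g' (ZMod.unitsMap h' w) = g (ZMod.unitsMap h w) := congrFun e w
    have e₂ : g' (ZMod.unitsMap h' v) = g (ZMod.unitsMap h v) := congrFun e v
    rw [← a, ← e₁, b, e₂]
  refine ⟨fun x => g (ZMod.unitsMap h (Function.surjInv hs x)), fun x => ?_, funext fun u =>
    inv _ _ (Function.surjInv_eq hs _)⟩
  rw [← hg, ← hn]
  exact inv _ _ (by rw [hn, Function.surjInv_eq hs, Function.surjInv_eq hs])

theorem exists_N0 (Bad : ℕ → Prop) (h1 : ¬ Bad 1) (h2 : ¬ Bad 2)
    (hg : ∀ N N', 0 < N → 0 < N' → Bad N → Bad N' → Bad (N.gcd N')) :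
    ∃ N₀, 2 < N₀ ∧ ∀ N, 0 < N → Bad N → N₀ ∣ N := by
  classical
  by_cases h : ∃ N, 0 < N ∧ Bad N
  · obtain ⟨p, b⟩ := Nat.find_spec h
    refine ⟨Nat.find h, ?_, fun N hN bN => ?_⟩
    · by_contra a
      obtain e | e : Nat.find h = 1 ∨ Nat.find h = 2 := by omega
      exacts [h1 (e ▸ b), h2 (e ▸ b)]
    · have := Nat.find_min' h ⟨Nat.gcd_pos_of_pos_left N p, hg _ _ p hN b bN⟩
      exact le_antisymm (Nat.gcd_le_left N p) this ▸ Nat.gcd_dvd_right _ _
  · exact ⟨3, by norm_num, fun N hN b => (h ⟨N, hN, b⟩).elim⟩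

end GPCG53
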