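import Pool.Agent.MP_57341d_ag.H72.WB
import Pool.Agent.MP_57341d_ag.H73W.AJ
import Pool.Agent.MP_57341d_ag.H48G.Lin

/-! Values of the Gamma function at rational points. -/

open Module GPC73 GPC42 GPC72 GPCG53 GPCJ Complex NumberField ComplexEmbedding

namespace GPC48

variable {N : ℕ} [NeZero N]

/-- The numbers `Γ(a / N) ^ 2 / π`. -/
noncomputable def GG (a : ZMod N) : ℂ := if a = 0 then 1 else Gamma (a.val / N) ^ 2 / Real.pi

theorem pi_ne : (Real.pi : ℂ) ≠ 0 := ofReal_ne_zero.2 Real.pi_ne_zero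

theorem N_ne : (N : ℂ) ≠ 0 := Nat.cast_ne_zero.2 (NeZero.ne N)

theorem re_pos {t : ℕ} (ht : 0 < t) : 0 < ((t : ℂ) / N).re := by
  rw [← ofReal_natCast, ← ofReal_natCast, ← ofReal_div, ofReal_re]
  have := NeZero.pos N
  positivity

theorem GG_ne (a : ZMod N) : GG a ≠ 0 := by
  unfold GG
  split_ifs with h
  · exact one_ne_zero
  · exact div_ne_zero (pow_ne_zero _ (Gamma_ne_zero_of_re_pos (re_pos ((ZMod.val_pos).2 h)))) pi_ne

theorem GG_neg (a : ZMod N) : IsAlgebraic ℚ (GG a * GG (-a)) := by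
  by_cases h : a = 0
  · simpa [GG, h] using isAlgebraic_one
  have : NeZero a := ⟨h⟩
  have e : (((-a).val : ℕ) : ℂ) / N = 1 - a.val / N := by
    rw [ZMod.val_neg_of_ne_zero, Nat.cast_sub (ZMod.val_lt a).le, sub_div, div_self N_ne]
  have e2 : GG a * GG (-a) = (sin (((a.val / N : ℚ) : ℂ) * Real.pi))⁻¹ ^ 2 := by
    have := Gamma_mul_Gamma_one_sub (a.val / N : ℂ)
    simp only [GG, h, neg_eq_zero, if_false, e]
    rw [div_mul_div_comm, ← mul_pow, this, mul_comm (Real.pi : ℂ) (_ / _)]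
    push_cast
    field_simp [pi_ne]
  rw [e2]
  exact ((isAlgebraic_sin_rat_mul_pi _).extendScalars (S := ℚ) Int.cast_injective).inv.pow 2

theorem GG_beta {a : ZMod N} (h0 : a ≠ 0) (h : 2 * a.val < N) : IsAlgebraic ℚ
    (betaIntegral (a.val / N) (1 / 2) ^ 2 / Real.pi / (GG a ^ 2 / GG (2 * a))) := by
  have hp := (ZMod.val_pos).2 h0
  have e : (2 * a).val = 2 * a.val := by
    rw [two_mul, ZMod.val_add_of_lt (by omega), two_mul]
  have h2 : 2 * a ≠ 0 := (ZMod.val_pos).1 (by omega)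
  have k1 := Gamma_mul_Gamma_eq_betaIntegral (re_pos (N := N) hp) (t := 1 / 2) (by simp)
  have k2 := Gamma_mul_Gamma_add_half (a.val / N : ℂ)
  have k3 : Gamma (1 / 2) ^ 2 = (Real.pi : ℂ) := by
    rw [Gamma_one_half_eq, one_div, ← Nat.cast_ofNat, cpow_nat_inv_pow _ two_ne_zero]
  have k4 : ((√Real.pi : ℝ) : ℂ) ^ 2 = Real.pi := by
    rw [← ofReal_pow, Real.sq_sqrt Real.pi_pos.le]
  have g1 := Gamma_ne_zero_of_re_pos (re_pos (N := N) hp)
  have g2 := Gamma_ne_zero_of_re_pos (re_pos (N := N) (t := 2 * a.val) (by omega))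
  have e' : ((2 * a.val : ℕ) : ℂ) / N = 2 * (a.val / N) := by
    push_cast
    ring
  rw [e'] at g2
  have hc : IsAlgebraic ℚ ((2 : ℂ) ^ (1 - 2 * (a.val / N : ℂ))) := by
    refine IsAlgebraic.of_pow (NeZero.pos N) ?_
    have : (N : ℂ) * (1 - 2 * (a.val / N)) = ((N - 2 * a.val : ℕ) : ℂ) := by
      rw [Nat.cast_sub h.le]
      push_cast
      field_simp [N_ne (N := N)]
    rw [← cpow_nat_mul, this, cpow_natCast]
    exact_mod_cast (isAlgebraic_natCast (R := ℚ) (A := ℂ) 2).pow _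
  have c0 : (2 : ℂ) ^ (1 - 2 * (a.val / N : ℂ)) ≠ 0 := by simp
  refine Eq.subst (motive := IsAlgebraic ℚ) (Eq.symm ?_) (hc.inv.pow 2)
  simp only [GG, h0, h2, if_false, e, e']
  generalize (2 : ℂ) ^ (1 - 2 * (a.val / N : ℂ)) = c at *
  have k5 : betaIntegral (a.val / N) (1 / 2) ^ 2 * (Gamma (2 * (a.val / N)) * c) ^ 2 =
      Gamma (a.val / N) ^ 4 := by
    refine mul_right_cancel₀ pi_ne ?_
    calc _ = (betaIntegral (a.val / N) (1 / 2) *
          (Gamma (2 * (a.val / N)) * c * ((√Real.pi : ℝ) : ℂ))) ^ 2 := by rw [← k4]; ring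
      _ = (Gamma (a.val / N) * (Gamma (a.val / N) * Gamma (1 / 2))) ^ 2 := by rw [← k2, k1]; ring
      _ = _ := by rw [← k3]; ring
  have := pi_ne
  generalize Gamma (2 * (a.val / N : ℂ)) = u at *
  field_simp
  linear_combination k5

theorem dbl {α : Type} [Finite α] {K : IntermediateField ℚ ℂ} (f : α → α) {G : α → ℂ}
    (h0 : ∀ a, G a ≠ 0) (h : ∀ a, IsAlgebraic K (G a ^ 2 / G (f a))) (a : α) :
    IsAlgebraic K (G a) := by
  have key : ∀ (k : ℕ) (a : α), IsAlgebraic K (G a ^ 2 ^ k / G (f^[k] a)) := fun k a => by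
    induction k with
    | zero => simpa [h0] using isAlgebraic_one
    | succ k ih =>
      refine Eq.subst (motive := IsAlgebraic K) (Eq.symm ?_) ((ih.pow 2).mul (h (f^[k] a)))
      rw [Function.iterate_succ_apply', pow_succ, pow_mul]
      field_simp [h0]
  obtain ⟨i, j, hij, e⟩ : ∃ i j, i < j ∧ f^[i] a = f^[j] a := by
    obtain ⟨i, j, hij, e⟩ := Finite.exists_ne_map_eq_of_infinite fun i : ℕ => f^[i] a
    rcases hij.lt_or_gt with h | h
    exacts [⟨i, j, h, e⟩, ⟨j, i, h, e.symm⟩]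
  have := (key j a).mul (key i a).inv
  rw [e, inv_div, div_mul_div_cancel₀ (h0 _), div_eq_mul_inv,
    ← pow_sub₀ _ (h0 a) (Nat.pow_le_pow_right two_pos hij.le)] at this
  exact this.of_pow (Nat.sub_pos_of_lt (Nat.pow_lt_pow_right one_lt_two hij))

theorem prim : IsPrimitiveRoot (ze N) N := isPrimitiveRoot_exp N (NeZero.ne N)

theorem zp_mul (a b : ZMod N) : (ze N ^ a.val) ^ b.val = ze N ^ (a * b).val := by
  rw [← pow_mul, ZMod.val_mul, ← pow_eq_pow_mod _ prim.pow_eq_one]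

theorem zp_inj {a b : (ZMod N)ˣ} (h : ze N ^ (a : ZMod N).val = ze N ^ (b : ZMod N).val) : a = b :=
  Units.ext (ZMod.val_injective N (prim.pow_inj (ZMod.val_lt _) (ZMod.val_lt _) h))

theorem zp_conj (a : ZMod N) : starRingEnd ℂ (ze N ^ a.val) = ze N ^ (-a).val := by
  have h1 : ‖ze N ^ a.val‖ = 1 := by
    rw [norm_pow, prim.norm'_eq_one (NeZero.ne N), one_pow]
  rw [← inv_eq_conj h1]
  refine inv_eq_of_mul_eq_one_right ?_
  rw [← pow_add, pow_eq_pow_mod _ prim.pow_eq_one, ← ZMod.val_add, add_neg_cancel, ZMod.val_zero,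
    pow_zero]

variable (N) in
theorem cyc : ∃ (E : Type) (_ : Field E) (_ : NumberField E) (_ : IsCMField E) (_ : IsGalois ℚ E),
    (∃ x : E, x ^ 2 = -1) ∧ (∃ x : E, x ^ 2 + x + 1 = 0) ∧
      ∃ (z : E) (s : (E →+* ℂ) → (ZMod N)ˣ), Function.Surjective s ∧
        ∀ φ, φ z = ze N ^ (s φ : ZMod N).val := by
  have hN := NeZero.pos N
  have : NeZero (12 * N) := ⟨by omega⟩
  let E := CyclotomicField (12 * N) ℚ
  have : IsCyclotomicExtension {12 * N} ℚ E := CyclotomicField.isCyclotomicExtension _ _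
  obtain ⟨ζ, hζ⟩ := IsCyclotomicExtension.exists_isPrimitiveRoot ℚ E (S := {12 * N}) rfl
    (NeZero.ne _)
  have hz : IsPrimitiveRoot (ζ ^ 12) N := hζ.pow (by omega) rfl
  have hs : ∀ φ : E →+* ℂ, ∃ u : (ZMod N)ˣ, φ (ζ ^ 12) = ze N ^ (u : ZMod N).val := fun φ => by
    obtain ⟨i, h1, h2, h3⟩ := (prim.isPrimitiveRoot_iff).1 (hz.map_of_injective φ.injective)
    exact ⟨ZMod.unitOfCoprime i h2, by rw [ZMod.coe_unitOfCoprime, ZMod.val_cast_of_lt h1, h3]⟩
  choose s hs using hs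
  refine ⟨E, _, inferInstance, IsCyclotomicExtension.Rat.isCMField E (S := {12 * N})
    ⟨_, rfl, by omega⟩, IsCyclotomicExtension.isGalois {12 * N} ℚ E, ⟨ζ ^ (3 * N), ?_⟩,
    ⟨ζ ^ (4 * N), ?_⟩, ζ ^ 12, s, fun u => ?_, hs⟩
  · rw [← pow_mul]
    exact (hζ.pow (by omega) (by ring)).eq_neg_one_of_two_right
  · have := (hζ.pow (a := 4 * N) (b := 3) (by omega) (by ring)).geom_sum_eq_zero (by norm_num)
    simp only [Finset.sum_range_succ, Finset.sum_range_zero] at this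
    linear_combination this
  · have : ze N ^ (u : ZMod N).val ∈ Set.range fun φ : E →+* ℂ => φ (ζ ^ 12) := by
      rw [Embeddings.range_eval_eq_rootSet_minpoly, ← Polynomial.cyclotomic_eq_minpoly_rat hz hN,
        Polynomial.mem_rootSet_of_ne (Polynomial.cyclotomic_ne_zero _ _), Polynomial.aeval_def,
        Polynomial.eval₂_eq_eval_map, Polynomial.map_cyclotomic]
      exact (prim.pow_of_coprime _ (ZMod.val_coe_unit_coprime u)).isRoot_cyclotomic hN
    obtain ⟨φ, h⟩ := this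
    exact ⟨φ, zp_inj ((hs φ).symm.trans h)⟩

variable {E : Type} [Field E] [NumberField E] {z : E} {s : (E →+* ℂ) → (ZMod N)ˣ}
  {b₀ : E →+* ℂ} {d : ℕ} {y : Option (E →+* ℂ) → ℂ}

/-- The exponents. -/
noncomputable def ep (s : (E →+* ℂ) → (ZMod N)ˣ) (b₀ : E →+* ℂ) (a : ZMod N)
    (o : Option (E →+* ℂ)) : ℤ := o.elim 0 fun ψ => eps N ((s b₀ * (s ψ)⁻¹ : (ZMod N)ˣ) * a)

omit [NumberField E] in
theorem s_conj (hs : ∀ φ, φ z = ze N ^ (s φ : ZMod N).val) (φ : E →+* ℂ) :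
    s (conjugate φ) = -s φ :=
  zp_inj (by rw [← hs, conjugate_coe_eq, hs, zp_conj, Units.val_neg])

theorem s_tw (hs : ∀ φ, φ z = ze N ^ (s φ : ZMod N).val) {φ ψ : E →+* ℂ} {γ : E ≃ₐ[ℚ] E}
    (h : ψ.comp (γ : E →+* E) = φ) : s (b₀.comp (γ : E →+* E)) = s b₀ * (s ψ)⁻¹ * s φ := by
  have e : γ z = z ^ (((s ψ)⁻¹ * s φ : (ZMod N)ˣ) : ZMod N).val := ψ.injective (by
    rw [map_pow, hs ψ, zp_mul, ← Units.val_mul, mul_inv_cancel_left, ← hs, ← h]
    rfl)
  refine zp_inj ?_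
  rw [← hs, mul_assoc, Units.val_mul, ← zp_mul, ← hs, ← map_pow, ← e]
  rfl

theorem eps_cases {a : ZMod N} (h : 2 * a ≠ 0) :
    (eps N a = 1 ∧ 0 < a.val ∧ 2 * a.val < N) ∨ (eps N a = -1 ∧ N < 2 * a.val) := by
  have h0 : a ≠ 0 := fun e => h (by rw [e, mul_zero])
  have h1 : 2 * a.val ≠ N := fun e => h (by
    have := congrArg (Nat.cast : ℕ → ZMod N) e
    simpa only [Nat.cast_mul, Nat.cast_ofNat, ZMod.natCast_val, ZMod.cast_id', id_eq, CharP.cast_eq_zero] using this)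
  have := (ZMod.val_pos).2 h0
  simp only [eps, h0, h1, if_false]
  split_ifs <;> omega

omit [NeZero N] in
theorem two_ne {a : ZMod N} (h : 2 * a ≠ 0) (u : (ZMod N)ˣ) : 2 * (u * a) ≠ 0 := by
  rwa [mul_left_comm, Ne, Units.mul_right_eq_zero]

variable [IsCMField E] [IsGalois ℚ E]

theorem y_pi (P : Pk d b₀ y) {Φ : Set (E →+* ℂ)} (hΦ : Ty Φ) {p : (E →+* ℂ) → ℂ} (h : PT d Φ p) :
    IsAlgebraic ℚ (y none / Real.pi) := by
  have h1 := (P.alg Φ p b₀ h).mul (P.alg Φ p (conjugate b₀) h)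
  have e : ex 2 b₀ Φ b₀ + ex 2 b₀ Φ (conjugate b₀) = (4 : ℤ) • e₀ := by
    funext o
    cases o with
    | none => simp [ex, e₀]
    | some ψ => simp [e₀, (ex_conj hΦ 2 b₀ ψ).1]
  have e2 : mon y e₀ = y none := by simp [mon, e₀]
  rw [div_mul_div_comm, ← mon_add P.ne, e, mon_smul, e2] at h1
  obtain ⟨_, A, b, -, q⟩ := id h
  have h2 := ((q.leg b₀).pow 4).inv.mul h1
  have h3 := (isAlgebraic_natCast (R := ℚ) (A := ℂ) 16).inv.mul h2
  refine IsAlgebraic.of_pow four_pos (IsAlgebraic.inv_iff.1 ?_)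
  refine Eq.subst (motive := IsAlgebraic ℚ) ?_ h3
  have := q.ne b₀
  have := q.ne (conjugate b₀)
  have := P.ne none
  have := pi_ne
  rw [show (4 : ℤ) = (4 : ℕ) from rfl, zpow_natCast]
  field_simp
  norm_num

theorem sgn₀ (P : Pk d b₀ y) (hs : ∀ φ, φ z = ze N ^ (s φ : ZMod N).val)
    (hu : Function.Surjective s) {a : ZMod N} (h0 : a ≠ 0) (h : 2 * a.val < N) :
    IsAlgebraic ℚ ((GG a ^ 2 / GG (2 * a)) ^ 2 / mon y (ep s b₀ a)) := by
  have h2 : 2 * a ≠ 0 := (ZMod.val_pos).1 (by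
    have := (ZMod.val_pos).2 h0
    rw [two_mul, ZMod.val_add_of_lt (by omega)]
    omega)
  have hΦ : Ty {φ : E →+* ℂ | eps N (s φ * a) = 1} := fun φ => by
    simp only [Set.mem_ofPred_eq, s_conj hs, Units.val_neg, neg_mul, eps_neg]
    rcases eps_cases (two_ne h2 (s φ)) with h | h <;> simp [h.1]
  obtain ⟨_, A, b, hA⟩ := P.fam _ hΦ
  obtain ⟨p, hp⟩ := exists_per hA
  obtain ⟨φ, hφ⟩ := hu 1
  have k1 := aj hA hp (p := N) (ζ := z ^ a.val) (fun φ => (s φ * a : ZMod N).val) (fun φ hφ => by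
    rcases eps_cases (two_ne h2 (s φ)) with h | h
    · exact ⟨h.2.1, h.2.2, by rw [map_pow, hs, zp_mul]; rfl⟩
    · exact absurd (h.1.symm.trans hφ) (by norm_num)) φ (by simp only [eps, Units.mul_right_eq_zero, h0, ↓ reduceIte, Int.reduceNeg, ite_eq_left_iff, not_lt, Set.mem_ofPred_eq, hφ, Units.val_one, one_mul, isEmpty_Prop, not_le, h, IsEmpty.forall_iff])
  simp only [hφ, Units.val_one, one_mul] at k1
  have k2 := P.alg _ p φ ⟨_, A, b, hA, hp⟩
  have e : ex 2 b₀ {φ : E →+* ℂ | eps N (s φ * a) = 1} φ = ep s b₀ a + (2 : ℤ) • e₀ := by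
    funext o
    cases o with
    | none => simp [ex, e₀, ep]
    | some ψ =>
      obtain ⟨γ, hγ⟩ := exists_tw ψ φ
      simp only [ex, Option.elim_some, sg_iff hγ, Set.mem_ofPred_eq, s_tw hs hγ, hφ, mul_one,
        Pi.add_apply, ep, Pi.smul_apply, e₀, smul_zero, add_zero]
      rcases eps_cases (two_ne h2 (s b₀ * (s ψ)⁻¹)) with h | h <;> rw [h.1] <;> simp
  have e2 : mon y e₀ = y none := by simp [mon, e₀]
  rw [e, mon_add P.ne, mon_smul, e2] at k2
  have k3 := y_pi P hΦ ⟨_, A, b, hA, hp⟩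
  have k4 := GG_beta h0 h
  have k5 := ((k2.mul (k3.pow 2)).mul (k1.pow 4).inv).mul (k4.pow 2).inv
  refine Eq.subst (motive := IsAlgebraic ℚ) ?_ k5
  have b0 : betaIntegral (a.val / N) (1 / 2) ≠ 0 := fun e =>
    B_ne (NeZero.ne N) ((ZMod.val_pos).2 h0).ne' (by rw [BB, e, zero_div])
  have := hp.ne φ
  have := P.ne none
  have := pi_ne
  have := GG_ne a
  have := GG_ne (2 * a)
  rw [show (2 : ℤ) = (2 : ℕ) from rfl, zpow_natCast]
  field_simp

theorem sgn (P : Pk d b₀ y) (hs : ∀ φ, φ z = ze N ^ (s φ : ZMod N).val)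
    (hu : Function.Surjective s) (a : ZMod N) :
    IsAlgebraic ℚ ((GG a ^ 2 / GG (2 * a)) ^ 2 / mon y (ep s b₀ a)) := by
  by_cases h2 : 2 * a = 0
  · have e : ∀ b : ZMod N, 2 * b = 0 → eps N b = 0 := fun b hb => by
      have := eps_neg b
      rw [neg_eq_of_add_eq_zero_left (two_mul b ▸ hb)] at this
      omega
    have e1 : ep s b₀ a = 0 := by
      funext o
      cases o with
      | none => rfl
      | some ψ => exact e _ (by rw [mul_left_comm, h2, mul_zero])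
    have e2 := GG_neg a
    rw [neg_eq_of_add_eq_zero_left (two_mul a ▸ h2)] at e2
    have e3 : GG (0 : ZMod N) = 1 := if_pos rfl
    simpa [e1, h2, e3, mon, sq] using e2.mul e2
  rcases eps_cases h2 with h | h
  · exact sgn₀ P hs hu ((ZMod.val_pos).1 h.2.1) h.2.2
  have h0 : a ≠ 0 := fun e => h2 (by rw [e, mul_zero])
  have : NeZero a := ⟨h0⟩
  have k := sgn₀ P hs hu (neg_ne_zero.2 h0) (by
    have := ZMod.val_lt a
    rw [ZMod.val_neg_of_ne_zero]
    omega)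
  have e : ep s b₀ (-a) = (-1 : ℤ) • ep s b₀ a := by
    funext o
    cases o <;> simp only [ep, Units.val_mul, mul_neg, eps_neg, Option.elim_none, Int.reduceNeg, Pi.smul_apply, Int.zsmul_eq_mul, mul_zero, Option.elim_some, neg_mul, one_mul]
  rw [e, mon_smul, mul_neg] at k
  refine Eq.subst (motive := IsAlgebraic ℚ) ?_
    ((((GG_neg a).pow 4).mul ((GG_neg (2 * a)).pow 2).inv).mul k.inv)
  have := GG_ne (-a)
  have := GG_ne (-(2 * a))
  have := GG_ne (2 * a)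
  rw [zpow_neg_one]
  field_simp

omit [IsCMField E] [IsGalois ℚ E] in
theorem rank (hN : 3 ≤ N) (P : Pk d b₀ y) (hs : ∀ φ, φ z = ze N ^ (s φ : ZMod N).val)
    (hu : Function.Surjective s) :
    rk y (Submodule.span ℚ (cst '' Set.range fun a => (2 : ℤ) • ep s b₀ a)) = N.totient / 2 := by
  let L : ((ZMod N)ˣ → ℚ) →ₗ[ℚ] Option (E →+* ℂ) → ℚ :=
    { toFun := fun f o => o.elim 0 fun ψ => 2 * f (s b₀ * (s ψ)⁻¹)
      map_add' := fun f g => funext fun o => by cases o <;> simp [mul_add]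
      map_smul' := fun c f => funext fun o => by cases o <;> simp [mul_left_comm] }
  have hL : Function.Injective L := (injective_iff_map_eq_zero L).2 fun f hf => funext fun u => by
    obtain ⟨ψ, h⟩ := hu (u⁻¹ * s b₀)
    simpa only [Pi.zero_apply, L, LinearMap.coe_mk, AddHom.coe_mk, Option.elim_some, h, mul_inv_rev, inv_inv, mul_inv_cancel_left, mul_eq_zero, OfNat.ofNat_ne_zero, false_or] using congrFun hf (some ψ)
  have e : Submodule.span ℚ (cst '' Set.range fun a => (2 : ℤ) • ep s b₀ a) = (Od N).map L := by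
    rw [← span_eps, Submodule.map_span, ← Set.range_comp, ← Set.range_comp]
    congr 2
    funext a o
    cases o <;> simp only [zsmul_eq_mul, Int.cast_ofNat, Function.comp_apply, cst, Pi.mul_apply, Pi.ofNat_apply, ep, Units.val_mul, Option.elim_none, mul_zero, Int.cast_zero, L, LinearMap.coe_mk, AddHom.coe_mk, Option.elim_some, Int.cast_mul]
  rw [P.zero, e, ← finrank_Od hN, ← (Submodule.equivMapOfInjective L hL _).finrank_eq]
  rw [e]
  rintro _ ⟨f, hf, rfl⟩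
  refine ⟨⟨fun ψ => ?_, fun ψ χ h => ?_⟩, rfl⟩
  · simp only [L, LinearMap.coe_mk, AddHom.coe_mk, Option.elim_some, s_conj hs, inv_neg, mul_neg, hf _]
  · rw [RingHom.ext fun x => h x IntermediateField.mem_top]

omit [NeZero N] in
theorem g1 (hN : 3 ≤ N) : Algebra.trdeg ℚ (IntermediateField.adjoin ℚ
    {z : ℂ | ∃ a : ℕ, 0 < a ∧ a < N ∧ z = Gamma (a / N) ^ 2 / Real.pi}) = (N.totient / 2 : ℕ) := by
  have : NeZero N := ⟨by omega⟩
  obtain ⟨E, _, _, _, _, hi, h3, z, s, hu, hs⟩ := cyc N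
  obtain ⟨d, b₀, y, P⟩ := exists_pk hi h3
  have k : ∀ a : ZMod N,
      IsAlgebraic ℚ ((GG a ^ 2 / GG (2 * a)) ^ 4 / mon y ((2 : ℤ) • ep s b₀ a)) := fun a => by
    refine Eq.subst (motive := IsAlgebraic ℚ) ?_ ((sgn P hs hu a).pow 2)
    rw [mon_smul, div_pow, ← pow_mul]
    rfl
  rw [trdeg_eq, ← rank hN P hs hu, ← crk_mon P.ne (S := Set.range fun a : ZMod N =>
    GG a ^ 2 / GG (2 * a)) (by rintro _ ⟨a, rfl⟩; exact ⟨_, ⟨a, rfl⟩, k a⟩) (by
      rintro _ ⟨a, rfl⟩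
      exact ⟨_, ⟨a, rfl⟩, div_ne_zero (pow_ne_zero _ (GG_ne _)) (GG_ne _), k a⟩)]
  refine le_antisymm (rk_le ?_) (rk_le ?_)
  · rintro _ ⟨a, h0, h1, rfl⟩
    have := dbl (fun a : ZMod N => 2 * a) GG_ne (fun a => mem_cl.1 (sub_cl (Set.range
      fun a : ZMod N => GG a ^ 2 / GG (2 * a)) ⟨a, rfl⟩)) a
    have e := ZMod.val_cast_of_lt h1
    rw [GG, if_neg ((ZMod.val_pos).1 (e.symm ▸ h0)), e] at this
    exact mem_cl.2 this
  · have h : ∀ a : ZMod N, IsAlgebraic (IntermediateField.adjoin ℚ {z : ℂ | ∃ a : ℕ, 0 < a ∧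
        a < N ∧ z = Gamma (a / N) ^ 2 / Real.pi}) (GG a) := fun a => by
      unfold GG
      split_ifs with h
      · exact isAlgebraic_one
      · exact mem_cl.1 (sub_cl _ ⟨_, (ZMod.val_pos).2 h, ZMod.val_lt a, rfl⟩)
    rintro _ ⟨a, rfl⟩
    exact mem_cl.2 (((h a).pow 2).mul (h _).inv)

end GPC48
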